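import Mathlib

/-!
# Extremal point-line configurations without lattice structure

Let `A` be the set of the `k ^ 2` numbers `a + b √2`, `0 ≤ a, b < k`, and let the points be `A × B`,
`B = {g + h √2 : 0 ≤ g, h < 4 k l}`, and the lines `y = s x + t`, `s = c + d √2`, `0 ≤ c, d < l`,
`t = e + f √2`, `0 ≤ e, f < k l`. There are `m = 16 k^4 l^2` points, `n = k^2 l^4` lines and at least
`k^4 l^4 = (m n)^(2/3) / 16^(2/3)` incidences. More than `3 m / k` of the points contain four collinear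
points with irrational cross ratio, namely three points whose differences are rational and one whose
difference to them is irrational, all with the same second coordinate. The cross ratio is preserved by
projective transformations and it is rational for points of `ℤ²`. The same holds for the dual points.
-/

set_option autoImplicit false

namespace Pool.Agent.Results.MP_fad2aa_co.QuadraticFieldGrids

open Finset Classical

/-- `ℓ` is a line in the plane. -/
def IsLine (ℓ : Set (ℝ × ℝ)) : Prop :=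
  ∃ a b c : ℝ, (a ≠ 0 ∨ b ≠ 0) ∧ ℓ = {p : ℝ × ℝ | a * p.1 + b * p.2 = c}

/-- The number of incidences `I(P, L)`. -/
noncomputable def incidences (P : Finset (ℝ × ℝ)) (L : Finset (Set (ℝ × ℝ))) : ℕ :=
  ((P ×ˢ L).filter fun q => q.1 ∈ q.2).card

/-- The point `q` of the plane is the image of the point `p` of the plane under the projective map
with matrix `M` (in particular the image of `p` is not at infinity). -/
def MapsTo (M : Matrix (Fin 3) (Fin 3) ℝ) (p q : ℝ × ℝ) : Prop :=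
  M.mulVec ![p.1, p.2, 1] 2 ≠ 0 ∧
    q.1 = M.mulVec ![p.1, p.2, 1] 0 / M.mulVec ![p.1, p.2, 1] 2 ∧
    q.2 = M.mulVec ![p.1, p.2, 1] 1 / M.mulVec ![p.1, p.2, 1] 2

/-- Some projective transformation maps `X` into a lattice section `{1, …, a} × {1, …, b}` of size
`a b ≤ K`. -/
def InLatticeSection (K : ℝ) (X : Finset (ℝ × ℝ)) : Prop :=
  ∃ M : Matrix (Fin 3) (Fin 3) ℝ, M.det ≠ 0 ∧ ∃ a b : ℕ, (a : ℝ) * b ≤ K ∧
    ∀ p ∈ X, ∃ i ∈ Icc 1 a, ∃ j ∈ Icc 1 b, MapsTo M p ((i : ℝ), (j : ℝ))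

/-- Some projective transformation maps `X` into the integer lattice `ℤ²`. -/
def InLattice (X : Finset (ℝ × ℝ)) : Prop :=
  ∃ M : Matrix (Fin 3) (Fin 3) ℝ, M.det ≠ 0 ∧ ∀ p ∈ X, ∃ i j : ℤ, MapsTo M p ((i : ℝ), (j : ℝ))

/-- The non-vertical line `y = s x - t` whose dual point is `q = (s, t)`. -/
def dualLine (q : ℝ × ℝ) : Set (ℝ × ℝ) := {p : ℝ × ℝ | p.2 = q.1 * p.1 - q.2}

/-- Alternative (a) of Q1 with the constants `c`, `C`. -/
def AltA (c C : ℝ) (P : Finset (ℝ × ℝ)) : Prop :=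
  ∃ P' ⊆ P, c * P.card ≤ P'.card ∧ InLatticeSection (C * P.card) P'

/-- Alternative (b) of Q1 with the constants `c`, `C`: `D` is the set of the dual points of the
lines of `L'`. -/
def AltB (c C : ℝ) (L : Finset (Set (ℝ × ℝ))) : Prop :=
  ∃ L' ⊆ L, c * L.card ≤ L'.card ∧ ∃ D : Finset (ℝ × ℝ), L' = D.image dualLine ∧
    InLatticeSection (C * L.card) D

/-- The statement Q1. -/
def Question : Prop :=
  ∀ C₁ c₂ c₃ : ℝ, 0 < C₁ → 0 < c₂ → 0 < c₃ → ∃ c C : ℝ, 0 < c ∧ 0 < C ∧ ∃ N : ℕ,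
    ∀ (P : Finset (ℝ × ℝ)) (L : Finset (Set (ℝ × ℝ))), (∀ ℓ ∈ L, IsLine ℓ) →
      N ≤ P.card → N ≤ L.card →
      c₂ * Real.sqrt L.card ≤ P.card → (P.card : ℝ) ≤ C₁ * (L.card : ℝ) ^ 2 →
      c₃ * (P.card : ℝ) ^ (2 / 3 : ℝ) * (L.card : ℝ) ^ (2 / 3 : ℝ) ≤ incidences P L →
      AltA c C P ∨ AltB c C L

/-! ### Cross ratios -/

theorem cross {M : Matrix (Fin 3) (Fin 3) ℝ} (hM : M.det ≠ 0) {y : ℝ} {x : Fin 4 → ℝ}
    (hx : Function.Injective x) {X Y : Fin 4 → ℤ}
    (h : ∀ i, MapsTo M (x i, y) ((X i : ℝ), (Y i : ℝ))) :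
    ∃ Z : Fin 4 → ℤ, Function.Injective Z ∧
      ((Z 0 : ℝ) - Z 2) * (Z 1 - Z 3) * ((x 0 - x 3) * (x 1 - x 2)) =
        ((Z 0 : ℝ) - Z 3) * (Z 1 - Z 2) * ((x 0 - x 2) * (x 1 - x 3)) := by
  set γ := M 2 0 with hγ
  set δ := M 2 1 * y + M 2 2 with hδ
  have hw : ∀ i, γ * x i + δ ≠ 0 := by
    intro i
    have := (h i).1
    simp only [Matrix.mulVec, dotProduct, Fin.sum_univ_three] at this
    simp only [Matrix.cons_val_zero, Matrix.cons_val_one, Matrix.cons_val] at this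
    intro h0
    apply this
    rw [← h0, hγ, hδ]
    ring
  have hX : ∀ i, (X i : ℝ) * (γ * x i + δ) = M 0 0 * x i + (M 0 1 * y + M 0 2) := by
    intro i
    have h1 := (h i).2.1
    simp only [Matrix.mulVec, dotProduct, Fin.sum_univ_three] at h1
    simp only [Matrix.cons_val_zero, Matrix.cons_val_one, Matrix.cons_val] at h1
    have h2 : M 2 0 * x i + M 2 1 * y + M 2 2 * 1 ≠ 0 := by
      intro h0
      apply hw i
      rw [← h0, hγ, hδ]
      ring
    rw [eq_div_iff h2] at h1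
    rw [hγ, hδ]
    linarith
  have hY : ∀ i, (Y i : ℝ) * (γ * x i + δ) = M 1 0 * x i + (M 1 1 * y + M 1 2) := by
    intro i
    have h1 := (h i).2.2
    simp only [Matrix.mulVec, dotProduct, Fin.sum_univ_three] at h1
    simp only [Matrix.cons_val_zero, Matrix.cons_val_one, Matrix.cons_val] at h1
    have h2 : M 2 0 * x i + M 2 1 * y + M 2 2 * 1 ≠ 0 := by
      intro h0
      apply hw i
      rw [← h0, hγ, hδ]
      ring
    rw [eq_div_iff h2] at h1
    rw [hγ, hδ]
    linarith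
  -- the general identity
  have hgen : ∀ (α β : ℝ) (Z : Fin 4 → ℤ), (∀ i, (Z i : ℝ) * (γ * x i + δ) = α * x i + β) →
      α * δ - β * γ ≠ 0 → Function.Injective Z ∧
      ((Z 0 : ℝ) - Z 2) * (Z 1 - Z 3) * ((x 0 - x 3) * (x 1 - x 2)) =
        ((Z 0 : ℝ) - Z 3) * (Z 1 - Z 2) * ((x 0 - x 2) * (x 1 - x 3)) := by
    intro α β Z hZ hD
    have hdiff : ∀ i j, ((Z i : ℝ) - Z j) * ((γ * x i + δ) * (γ * x j + δ)) =
        (α * δ - β * γ) * (x i - x j) := by
      intro i j
      have h1 := hZ i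
      have h2 := hZ j
      calc ((Z i : ℝ) - Z j) * ((γ * x i + δ) * (γ * x j + δ))
          = ((Z i : ℝ) * (γ * x i + δ)) * (γ * x j + δ) -
            ((Z j : ℝ) * (γ * x j + δ)) * (γ * x i + δ) := by ring
        _ = (α * δ - β * γ) * (x i - x j) := by rw [h1, h2]; ring
    refine ⟨?_, ?_⟩
    · intro i j hij
      have := hdiff i j
      rw [hij, sub_self, zero_mul] at this
      rcases mul_eq_zero.1 this.symm with h1 | h1
      · exact absurd h1 hD
      · exact hx (by linarith)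
    · have h02 := hdiff 0 2
      have h13 := hdiff 1 3
      have h03 := hdiff 0 3
      have h12 := hdiff 1 2
      have hw' : (γ * x 0 + δ) * (γ * x 1 + δ) * (γ * x 2 + δ) * (γ * x 3 + δ) ≠ 0 :=
        mul_ne_zero (mul_ne_zero (mul_ne_zero (hw 0) (hw 1)) (hw 2)) (hw 3)
      apply mul_left_cancel₀ hw'
      calc (γ * x 0 + δ) * (γ * x 1 + δ) * (γ * x 2 + δ) * (γ * x 3 + δ) *
            (((Z 0 : ℝ) - Z 2) * (Z 1 - Z 3) * ((x 0 - x 3) * (x 1 - x 2)))
          = (((Z 0 : ℝ) - Z 2) * ((γ * x 0 + δ) * (γ * x 2 + δ))) *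
            (((Z 1 : ℝ) - Z 3) * ((γ * x 1 + δ) * (γ * x 3 + δ))) *
            ((x 0 - x 3) * (x 1 - x 2)) := by ring
        _ = (((Z 0 : ℝ) - Z 3) * ((γ * x 0 + δ) * (γ * x 3 + δ))) *
            (((Z 1 : ℝ) - Z 2) * ((γ * x 1 + δ) * (γ * x 2 + δ))) *
            ((x 0 - x 2) * (x 1 - x 3)) := by rw [h02, h13, h03, h12]; ring
        _ = _ := by ring
  by_cases hD : M 0 0 * δ - (M 0 1 * y + M 0 2) * γ = 0
  · by_cases hD' : M 1 0 * δ - (M 1 1 * y + M 1 2) * γ = 0
    · exfalso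
      apply hM
      rw [Matrix.det_fin_three]
      -- the third minor vanishes too
      have h3 : M 0 0 * (M 1 1 * y + M 1 2) - M 1 0 * (M 0 1 * y + M 0 2) = 0 := by
        by_cases hg : γ = 0
        · have hd : δ ≠ 0 := by
            have := hw 0
            rw [hg, zero_mul, zero_add] at this
            exact this
          apply mul_left_cancel₀ hd
          rw [hg] at hD hD'
          have e1 : M 0 0 * δ = 0 := by linarith
          have e2 : M 1 0 * δ = 0 := by linarith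
          calc δ * (M 0 0 * (M 1 1 * y + M 1 2) - M 1 0 * (M 0 1 * y + M 0 2))
              = (M 0 0 * δ) * (M 1 1 * y + M 1 2) - (M 1 0 * δ) * (M 0 1 * y + M 0 2) := by ring
            _ = δ * 0 := by rw [e1, e2]; ring
        · apply mul_left_cancel₀ hg
          have e1 : (M 0 1 * y + M 0 2) * γ = M 0 0 * δ := by linarith
          have e2 : (M 1 1 * y + M 1 2) * γ = M 1 0 * δ := by linarith
          calc γ * (M 0 0 * (M 1 1 * y + M 1 2) - M 1 0 * (M 0 1 * y + M 0 2))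
              = M 0 0 * ((M 1 1 * y + M 1 2) * γ) - M 1 0 * ((M 0 1 * y + M 0 2) * γ) := by ring
            _ = γ * 0 := by rw [e1, e2]; ring
      have key : M 0 0 * M 1 1 * M 2 2 - M 0 0 * M 1 2 * M 2 1 - M 0 1 * M 1 0 * M 2 2 +
          M 0 1 * M 1 2 * M 2 0 + M 0 2 * M 1 0 * M 2 1 - M 0 2 * M 1 1 * M 2 0 =
          - M 0 1 * (M 1 0 * δ - (M 1 1 * y + M 1 2) * γ) +
            M 1 1 * (M 0 0 * δ - (M 0 1 * y + M 0 2) * γ) -
            M 2 1 * (M 0 0 * (M 1 1 * y + M 1 2) - M 1 0 * (M 0 1 * y + M 0 2)) := by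
        rw [hγ, hδ]
        ring
      rw [key, hD, hD', h3]
      ring
    · exact ⟨Y, hgen _ _ Y hY hD'⟩
  · exact ⟨X, hgen _ _ X hX hD⟩

/-- four points with the same second coordinate, three of which have rational differences and one of
which has an irrational difference to them, are not mapped into the integer lattice -/
theorem irr_cross {M : Matrix (Fin 3) (Fin 3) ℝ} (hM : M.det ≠ 0) {y : ℝ} {x₀ x₁ x₂ z : ℝ}
    (h01 : x₀ ≠ x₁) (h02 : x₀ ≠ x₂) (h12 : x₁ ≠ x₂) {r s : ℚ} (hr : x₁ - x₀ = r) (hs : x₂ - x₀ = s)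
    (hz : Irrational (z - x₀))
    (h0 : ∃ i j : ℤ, MapsTo M (x₀, y) ((i : ℝ), (j : ℝ)))
    (h1 : ∃ i j : ℤ, MapsTo M (x₁, y) ((i : ℝ), (j : ℝ)))
    (h2 : ∃ i j : ℤ, MapsTo M (x₂, y) ((i : ℝ), (j : ℝ)))
    (h3 : ∃ i j : ℤ, MapsTo M (z, y) ((i : ℝ), (j : ℝ))) : False := by
  obtain ⟨a0, b0, h0⟩ := h0
  obtain ⟨a1, b1, h1⟩ := h1
  obtain ⟨a2, b2, h2⟩ := h2
  obtain ⟨a3, b3, h3⟩ := h3
  have hz0 : z ≠ x₀ := by
    rintro rfl
    rw [sub_self] at hz
    exact not_irrational_zero hz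
  have hz1 : z ≠ x₁ := by
    rintro rfl
    rw [hr] at hz
    exact hz ⟨r, rfl⟩
  have hz2 : z ≠ x₂ := by
    rintro rfl
    rw [hs] at hz
    exact hz ⟨s, rfl⟩
  have hinj : Function.Injective (![x₀, x₁, x₂, z] : Fin 4 → ℝ) := by
    intro i j hij
    fin_cases i <;> fin_cases j <;> simp at hij ⊢
    · exact h01 hij
    · exact h02 hij
    · exact hz0 hij.symm
    · exact h01 hij.symm
    · exact h12 hij
    · exact hz1 hij.symm
    · exact h02 hij.symm
    · exact h12 hij.symm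
    · exact hz2 hij.symm
    · exact hz0 hij
    · exact hz1 hij
    · exact hz2 hij
  obtain ⟨Z, hZ, he⟩ := cross hM (x := ![x₀, x₁, x₂, z]) (y := y) hinj (X := ![a0, a1, a2, a3])
    (Y := ![b0, b1, b2, b3]) (by
      intro i
      fin_cases i
      · exact h0
      · exact h1
      · exact h2
      · exact h3)
  simp only [Matrix.cons_val_zero, Matrix.cons_val_one, Matrix.cons_val] at he
  have n02 : (Z 0 : ℤ) - Z 2 ≠ 0 := sub_ne_zero.2 (fun h => by have := hZ h; simp at this)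
  have n13 : (Z 1 : ℤ) - Z 3 ≠ 0 := sub_ne_zero.2 (fun h => by have := hZ h; simp at this)
  have n03 : (Z 0 : ℤ) - Z 3 ≠ 0 := sub_ne_zero.2 (fun h => by have := hZ h; simp at this)
  have n12 : (Z 1 : ℤ) - Z 2 ≠ 0 := sub_ne_zero.2 (fun h => by have := hZ h; simp at this)
  -- z - x₀ =: w satisfies p * w = q * (w - r) with rational p, q ≠ 0
  set w := z - x₀ with hw
  have e03 : x₀ - z = -w := by rw [hw]; ring
  have e13 : x₁ - z = r - w := by rw [hw, ← hr]; ring
  have e12 : x₁ - x₂ = r - s := by rw [← hr, ← hs]; ring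
  have e02 : x₀ - x₂ = -s := by rw [← hs]; ring
  rw [e03, e13, e12, e02] at he
  have hrs : (r : ℝ) - s ≠ 0 := by
    rw [← e12]
    exact sub_ne_zero.2 h12
  have hs0 : (s : ℝ) ≠ 0 := by
    rw [← hs]
    exact sub_ne_zero.2 (Ne.symm h02)
  have hr0 : (r : ℝ) ≠ 0 := by
    rw [← hr]
    exact sub_ne_zero.2 (Ne.symm h01)
  set p : ℚ := ((Z 0 : ℚ) - Z 2) * (Z 1 - Z 3) * (r - s) with hp
  set q : ℚ := ((Z 0 : ℚ) - Z 3) * (Z 1 - Z 2) * s with hq
  have he' : (p : ℝ) * w = q * (r - w) := by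
    rw [hp, hq]
    push_cast
    linarith
  by_cases hpq : (p : ℝ) + q = 0
  · have : (q : ℝ) * r = 0 := by
      have : ((p : ℝ) + q) * w = q * r := by linarith
      rw [hpq, zero_mul] at this
      exact this.symm
    rcases mul_eq_zero.1 this with h | h
    · have hq0 : q ≠ 0 := by
        rw [hq]
        apply mul_ne_zero (mul_ne_zero _ _)
        · exact_mod_cast hs0
        · exact_mod_cast n03
        · exact_mod_cast n12
      exact hq0 (by exact_mod_cast h)
    · exact hr0 h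
  · apply hz
    refine ⟨q * r / (p + q), ?_⟩
    push_cast
    rw [div_eq_iff hpq]
    linarith

/-! ### Grids in the quadratic field -/

/-- the numbers `a + b √2` with `0 ≤ a, b < k` -/
noncomputable def grid (k : ℕ) : Finset ℝ :=
  (range k ×ˢ range k).image fun a : ℕ × ℕ => (a.1 : ℝ) + a.2 * Real.sqrt 2

theorem grid_inj : Function.Injective fun a : ℕ × ℕ => (a.1 : ℝ) + a.2 * Real.sqrt 2 := by
  rintro ⟨a, b⟩ ⟨c, d⟩ h
  simp only at h
  have hbd : b = d := by
    by_contra hne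
    apply irrational_sqrt_two
    refine ⟨((c : ℚ) - a) / ((b : ℚ) - d), ?_⟩
    have : ((b : ℝ) - d) ≠ 0 := by
      rw [sub_ne_zero]
      exact_mod_cast hne
    push_cast
    rw [div_eq_iff this]
    linarith
  subst hbd
  have : (a : ℝ) = c := by linarith
  rw [show a = c by exact_mod_cast this]

theorem card_grid (k : ℕ) : (grid k).card = k ^ 2 := by
  unfold grid
  rw [card_image_of_injective _ grid_inj, card_product, card_range, sq]

/-- a large subset of the grid contains three points with rational differences and one more point -/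
theorem grid_sub {k : ℕ} {A' : Finset ℝ} (hA : A' ⊆ grid k) (hc : 2 * k < A'.card) :
    ∃ x₀ ∈ A', ∃ x₁ ∈ A', ∃ x₂ ∈ A', ∃ z ∈ A', x₀ ≠ x₁ ∧ x₀ ≠ x₂ ∧ x₁ ≠ x₂ ∧
      ∃ r s : ℚ, x₁ - x₀ = r ∧ x₂ - x₀ = s ∧ Irrational (z - x₀) := by
  -- coordinates
  have hco : ∀ x ∈ A', ∃ a : ℕ × ℕ, a.1 < k ∧ a.2 < k ∧ (a.1 : ℝ) + a.2 * Real.sqrt 2 = x := by
    intro x hx
    have := hA hx
    unfold grid at this
    rw [mem_image] at this
    obtain ⟨a, ha, rfl⟩ := this
    rw [mem_product, mem_range, mem_range] at ha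
    exact ⟨a, ha.1, ha.2, rfl⟩
  choose! f hf1 hf2 hf3 using hco
  -- a row with at least three points
  obtain ⟨b, hb, hb2⟩ := exists_lt_card_fiber_of_mul_lt_card_of_maps_to
    (s := A') (t := range k) (f := fun x => (f x).2) (n := 2)
    (fun x hx => mem_range.2 (hf2 x hx)) (by rw [card_range]; omega)
  obtain ⟨x₀, h0, x₁, h1, x₂, h2, h01, h02, h12⟩ := two_lt_card.1 hb2
  rw [mem_filter] at h0 h1 h2
  -- a point outside the row
  have hz : ∃ z ∈ A', (f z).2 ≠ b := by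
    by_contra hcon
    push Not at hcon
    have : A'.card ≤ k := by
      rw [← card_range k]
      apply card_le_card_of_injOn (fun x => (f x).1)
      · intro x hx
        exact mem_range.2 (hf1 x hx)
      · intro x hx y hy hxy
        have h5 : (f x).1 = (f y).1 := hxy
        rw [← hf3 x hx, ← hf3 y hy, h5, hcon x hx, hcon y hy]
    omega
  obtain ⟨z, hz, hzb⟩ := hz
  refine ⟨x₀, h0.1, x₁, h1.1, x₂, h2.1, z, hz, h01, h02, h12, ((f x₁).1 : ℚ) - (f x₀).1,
    ((f x₂).1 : ℚ) - (f x₀).1, ?_, ?_, ?_⟩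
  · have e0 := hf3 x₀ h0.1
    have e1 := hf3 x₁ h1.1
    rw [h0.2] at e0
    rw [h1.2] at e1
    push_cast
    linarith
  · have e0 := hf3 x₀ h0.1
    have e1 := hf3 x₂ h2.1
    rw [h0.2] at e0
    rw [h2.2] at e1
    push_cast
    linarith
  · have e0 := hf3 x₀ h0.1
    have e1 := hf3 z hz
    rw [h0.2] at e0
    have e2 : z - x₀ = (((f z).1 : ℤ) - ((f x₀).1 : ℤ) : ℤ) +
        ((((f z).2 : ℤ) - (b : ℤ) : ℤ) : ℝ) * Real.sqrt 2 := by
      push_cast
      linarith
    rw [e2]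
    have hne : ((f z).2 : ℤ) - (b : ℤ) ≠ 0 := by
      rw [sub_ne_zero]
      exact_mod_cast hzb
    exact (irrational_sqrt_two.intCast_mul hne).intCast_add _

/-- no large part of a product of the grid with another set is projectively a part of `ℤ²` -/
theorem not_inLattice {k : ℕ} {B : Finset ℝ} {X : Finset (ℝ × ℝ)} (hX : X ⊆ grid k ×ˢ B)
    (hc : 2 * k * B.card < X.card) : ¬ InLattice X := by
  rintro ⟨M, hM, h⟩
  have h1 : B.card * (2 * k) < X.card := by rw [mul_comm]; exact hc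
  obtain ⟨y, _, hy⟩ := exists_lt_card_fiber_of_mul_lt_card_of_maps_to
    (s := X) (t := B) (f := fun p => p.2) (n := 2 * k)
    (fun p hp => (mem_product.1 (hX hp)).2) h1
  set A' := (X.filter fun p => p.2 = y).image fun p => p.1 with hA'
  have hcard : A'.card = (X.filter fun p => p.2 = y).card := by
    rw [hA']
    apply card_image_of_injOn
    intro p hp q hq hpq
    rw [mem_coe, mem_filter] at hp hq
    exact Prod.ext hpq (hp.2.trans hq.2.symm)
  have hmem : ∀ x ∈ A', (x, y) ∈ X := by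
    intro x hx
    rw [hA', mem_image] at hx
    obtain ⟨p, hp, rfl⟩ := hx
    rw [mem_filter] at hp
    have : (p.1, y) = p := by rw [← hp.2]
    rw [this]
    exact hp.1
  obtain ⟨x₀, h0, x₁, h1, x₂, h2, z, h3, n01, n02, n12, r, s, hr, hs, hz⟩ :=
    grid_sub (k := k) (A' := A') (fun x hx => (mem_product.1 (hX (hmem x hx))).1) (by rw [hcard]; exact hy)
  exact irr_cross hM n01 n02 n12 hr hs hz (h _ (hmem _ h0)) (h _ (hmem _ h1)) (h _ (hmem _ h2))
    (h _ (hmem _ h3))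

theorem inLattice_of_section {K : ℝ} {X : Finset (ℝ × ℝ)} (h : InLatticeSection K X) :
    InLattice X := by
  obtain ⟨M, hM, a, b, _, h⟩ := h
  refine ⟨M, hM, fun p hp => ?_⟩
  obtain ⟨i, _, j, _, hij⟩ := h p hp
  exact ⟨i, j, by simpa using hij⟩

theorem dualLine_inj : Function.Injective dualLine := by
  intro p q h
  have h0 : ((0 : ℝ), -p.2) ∈ dualLine q := by
    rw [← h]
    simp [dualLine]
  have h1 : ((1 : ℝ), p.1 - p.2) ∈ dualLine q := by
    rw [← h]
    simp [dualLine]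
  simp only [dualLine, Set.mem_ofPred_eq, mul_zero, zero_sub, mul_one] at h0 h1
  apply Prod.ext <;> linarith

/-! ### The configuration -/

/-- the points -/
noncomputable def pts (k l : ℕ) : Finset (ℝ × ℝ) := grid k ×ˢ grid (4 * k * l)

/-- the lines `y = s x + t` -/
noncomputable def lns (k l : ℕ) : Finset (Set (ℝ × ℝ)) :=
  (grid l ×ˢ (grid (k * l)).image Neg.neg).image dualLine

theorem card_pts (k l : ℕ) : (pts k l).card = 16 * k ^ 4 * l ^ 2 := by
  unfold pts
  rw [card_product, card_grid, card_grid]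
  ring

theorem card_neg (k : ℕ) : ((grid k).image Neg.neg).card = k ^ 2 := by
  rw [card_image_of_injective _ neg_injective, card_grid]

theorem card_lns (k l : ℕ) : (lns k l).card = k ^ 2 * l ^ 4 := by
  unfold lns
  rw [card_image_of_injective _ dualLine_inj, card_product, card_grid, card_neg]
  ring

theorem line_lns {k l : ℕ} : ∀ ℓ ∈ lns k l, IsLine ℓ := by
  intro ℓ hℓ
  unfold lns at hℓ
  rw [mem_image] at hℓ
  obtain ⟨q, _, rfl⟩ := hℓ
  refine ⟨q.1, -1, q.2, Or.inr (by norm_num), ?_⟩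
  ext p
  simp only [dualLine, Set.mem_ofPred_eq]
  constructor <;> intro h <;> linarith

theorem mem_grid {k : ℕ} {x : ℝ} : x ∈ grid k ↔ ∃ a b : ℕ, a < k ∧ b < k ∧
    (a : ℝ) + b * Real.sqrt 2 = x := by
  unfold grid
  rw [mem_image]
  constructor
  · rintro ⟨a, ha, rfl⟩
    rw [mem_product, mem_range, mem_range] at ha
    exact ⟨a.1, a.2, ha.1, ha.2, rfl⟩
  · rintro ⟨a, b, ha, hb, rfl⟩
    exact ⟨(a, b), mem_product.2 ⟨mem_range.2 ha, mem_range.2 hb⟩, rfl⟩

theorem mul_add_grid {k l : ℕ} {x s t : ℝ} (hx : x ∈ grid k) (hs : s ∈ grid l)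
    (ht : t ∈ grid (k * l)) : s * x + t ∈ grid (4 * k * l) := by
  rw [mem_grid] at hx hs ht ⊢
  obtain ⟨a, b, ha, hb, rfl⟩ := hx
  obtain ⟨c, d, hc, hd, rfl⟩ := hs
  obtain ⟨e, f, he, hf, rfl⟩ := ht
  have h1 : c * a ≤ k * l := by rw [mul_comm]; exact Nat.mul_le_mul ha.le hc.le
  have h2 : d * b ≤ k * l := by rw [mul_comm]; exact Nat.mul_le_mul hb.le hd.le
  have h3 : c * b ≤ k * l := by rw [mul_comm]; exact Nat.mul_le_mul hb.le hc.le
  have h4 : d * a ≤ k * l := by rw [mul_comm]; exact Nat.mul_le_mul ha.le hd.le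
  refine ⟨c * a + 2 * (d * b) + e, c * b + d * a + f, ?_, ?_, ?_⟩
  · rw [mul_assoc]; omega
  · rw [mul_assoc]; omega
  · push_cast
    have : Real.sqrt 2 * Real.sqrt 2 = 2 := Real.mul_self_sqrt (by norm_num)
    linear_combination ((-2) * (d : ℝ) * b + (d : ℝ) * b * 2 - (d : ℝ) * b) * this +
      (d : ℝ) * b * 0 * this

theorem incidences_ge (k l : ℕ) : k ^ 4 * l ^ 4 ≤ incidences (pts k l) (lns k l) := by
  have h1 : k ^ 4 * l ^ 4 = (grid k ×ˢ (grid l ×ˢ grid (k * l))).card := by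
    rw [card_product, card_product, card_grid, card_grid, card_grid]
    ring
  rw [h1]
  unfold incidences
  apply card_le_card_of_injOn (fun q : ℝ × (ℝ × ℝ) =>
    (((q.1, q.2.1 * q.1 + q.2.2) : ℝ × ℝ), dualLine (q.2.1, -q.2.2)))
  · rintro ⟨x, s, t⟩ hq
    rw [mem_coe, mem_product, mem_product] at hq
    obtain ⟨hx, hs, ht⟩ := hq
    simp only at hx hs ht
    rw [mem_coe, mem_filter, mem_product]
    refine ⟨⟨?_, ?_⟩, ?_⟩
    · unfold pts
      rw [mem_product]
      exact ⟨hx, mul_add_grid hx hs ht⟩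
    · unfold lns
      rw [mem_image]
      exact ⟨(s, -t), mem_product.2 ⟨hs, mem_image.2 ⟨t, ht, rfl⟩⟩, rfl⟩
    · show s * x + t = s * x - -t
      ring
  · rintro ⟨x, s, t⟩ _ ⟨x', s', t'⟩ _ h
    simp only [Prod.mk.injEq] at h
    obtain ⟨⟨h1, _⟩, h2⟩ := h
    have h3 := dualLine_inj h2
    rw [Prod.mk.injEq] at h3
    rw [h1, h3.1, neg_injective h3.2]

theorem not_a {k l : ℕ} {P' : Finset (ℝ × ℝ)} (hP : P' ⊆ pts k l)
    (hc : 2 * (pts k l).card < k * P'.card) : ¬ InLattice P' := by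
  apply not_inLattice hP
  rw [card_pts] at hc
  rw [card_grid]
  have hk : 0 < k := by
    rcases Nat.eq_zero_or_pos k with h | h
    · rw [h] at hc; simp at hc
    · exact h
  apply Nat.lt_of_mul_lt_mul_left (a := k)
  calc k * (2 * k * (4 * k * l) ^ 2) = 2 * (16 * k ^ 4 * l ^ 2) := by ring
    _ < k * P'.card := hc

theorem not_b {k l : ℕ} {L' : Finset (Set (ℝ × ℝ))} (hL : L' ⊆ lns k l)
    (hc : 2 * (lns k l).card < l * L'.card) (D : Finset (ℝ × ℝ)) (hD : L' = D.image dualLine) :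
    ¬ InLattice D := by
  have hsub : D ⊆ grid l ×ˢ (grid (k * l)).image Neg.neg := by
    intro q hq
    have h1 : dualLine q ∈ lns k l := hL (by rw [hD]; exact mem_image_of_mem _ hq)
    unfold lns at h1
    rw [mem_image] at h1
    obtain ⟨q', hq', h2⟩ := h1
    rw [← dualLine_inj h2]
    exact hq'
  have hcard : L'.card = D.card := by
    rw [hD, card_image_of_injective _ dualLine_inj]
  apply not_inLattice hsub
  rw [card_neg, ← hcard]
  rw [card_lns] at hc
  have hl : 0 < l := by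
    rcases Nat.eq_zero_or_pos l with h | h
    · rw [h] at hc; simp at hc
    · exact h
  apply Nat.lt_of_mul_lt_mul_left (a := l)
  calc l * (2 * l * (k * l) ^ 2) = 2 * (k ^ 2 * l ^ 4) := by ring
    _ < l * L'.card := hc

theorem rpow_two_thirds {x y : ℝ} (hx : 0 ≤ x) (hy : 0 ≤ y) (h : x ^ 2 ≤ y ^ 3) :
    x ^ (2 / 3 : ℝ) ≤ y := by
  have h1 : x ^ (2 / 3 : ℝ) = (x ^ 2) ^ (1 / 3 : ℝ) := by
    rw [← Real.rpow_natCast, ← Real.rpow_mul hx]
    norm_num
  have h2 : y = (y ^ 3) ^ (1 / 3 : ℝ) := by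
    rw [← Real.rpow_natCast, ← Real.rpow_mul hy]
    norm_num
  rw [h1, h2]
  exact Real.rpow_le_rpow (by positivity) h (by norm_num)

/-- (1) For all `k, l ≥ 1` there are a set `P` of `16 k^4 l^2` points and a set `L` of `k^2 l^4` lines
with at least `k^4 l^4` incidences such that no subset of `P` with more than `(2 / k) |P|` points is
mapped by a projective transformation into the lattice `ℤ²`, and for no subset of `L` with more than
`(2 / l) |L|` lines the set of the dual points is mapped by a projective transformation into `ℤ²`.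
(2) Q1 has a negative answer. -/
theorem result :
    (∀ k l : ℕ, 1 ≤ k → 1 ≤ l → ∃ (P : Finset (ℝ × ℝ)) (L : Finset (Set (ℝ × ℝ))),
      (∀ ℓ ∈ L, IsLine ℓ) ∧ P.card = 16 * k ^ 4 * l ^ 2 ∧ L.card = k ^ 2 * l ^ 4 ∧
      k ^ 4 * l ^ 4 ≤ incidences P L ∧
      (∀ P' ⊆ P, 2 * P.card < k * P'.card → ¬ InLattice P') ∧
      (∀ L' ⊆ L, 2 * L.card < l * L'.card → ∀ D : Finset (ℝ × ℝ), L' = D.image dualLine →
        ¬ InLattice D)) ∧
    ¬ Question := by
  have h1 : ∀ k l : ℕ, 1 ≤ k → 1 ≤ l → ∃ (P : Finset (ℝ × ℝ)) (L : Finset (Set (ℝ × ℝ))),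
      (∀ ℓ ∈ L, IsLine ℓ) ∧ P.card = 16 * k ^ 4 * l ^ 2 ∧ L.card = k ^ 2 * l ^ 4 ∧
      k ^ 4 * l ^ 4 ≤ incidences P L ∧
      (∀ P' ⊆ P, 2 * P.card < k * P'.card → ¬ InLattice P') ∧
      (∀ L' ⊆ L, 2 * L.card < l * L'.card → ∀ D : Finset (ℝ × ℝ), L' = D.image dualLine →
        ¬ InLattice D) := by
    intro k l _ _
    exact ⟨pts k l, lns k l, line_lns, card_pts k l, card_lns k l, incidences_ge k l,
      fun P' hP' hc => not_a hP' hc, fun L' hL' hc D hD => not_b hL' hc D hD⟩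
  refine ⟨h1, ?_⟩
  intro hQ
  obtain ⟨c, C, hc, hC, N, hN⟩ := hQ 16 1 (1 / 8) (by norm_num) (by norm_num) (by norm_num)
  obtain ⟨k, hk⟩ := exists_nat_gt (max (N : ℝ) (2 / c) + 1)
  have hkN : (N : ℝ) < k := by linarith [le_max_left (N : ℝ) (2 / c)]
  have hkc : 2 / c < k := by linarith [le_max_right (N : ℝ) (2 / c)]
  have hk1 : (1 : ℝ) ≤ k := by
    have : (0 : ℝ) ≤ max (N : ℝ) (2 / c) := le_trans (Nat.cast_nonneg N) (le_max_left _ _)
    linarith
  have hkN' : N < k := by exact_mod_cast hkN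
  have hk1' : 1 ≤ k := by exact_mod_cast hk1
  obtain ⟨P, L, hline, hP, hL, hI, hA, hB⟩ := h1 k k hk1' hk1'
  have hP' : P.card = 16 * k ^ 6 := by rw [hP]; ring
  have hL' : L.card = k ^ 6 := by rw [hL]; ring
  have hk6 : k ≤ k ^ 6 := Nat.le_self_pow (by norm_num) k
  have hk0 : (0 : ℝ) ≤ k := by linarith
  have hkc' : 2 < k * c := by
    rw [div_lt_iff₀ hc] at hkc
    exact hkc
  have hor := hN P L hline (by omega) (by omega) ?_ ?_ ?_
  · rcases hor with ⟨P', hP'P, hcard, hsec⟩ | ⟨L', hL'L, hcard, D, hD, hsec⟩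
    · refine hA P' hP'P ?_ (inLattice_of_section hsec)
      have : (2 : ℝ) * P.card < k * P'.card := by
        have hpos : (0 : ℝ) < P.card := by
          rw [hP']
          push_cast
          positivity
        calc (2 : ℝ) * P.card < k * c * P.card := mul_lt_mul_of_pos_right hkc' hpos
          _ = k * (c * P.card) := by ring
          _ ≤ k * P'.card := mul_le_mul_of_nonneg_left hcard hk0
      exact_mod_cast this
    · refine hB L' hL'L ?_ D hD (inLattice_of_section hsec)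
      have : (2 : ℝ) * L.card < k * L'.card := by
        have hpos : (0 : ℝ) < L.card := by
          rw [hL']
          push_cast
          positivity
        calc (2 : ℝ) * L.card < k * c * L.card := mul_lt_mul_of_pos_right hkc' hpos
          _ = k * (c * L.card) := by ring
          _ ≤ k * L'.card := mul_le_mul_of_nonneg_left hcard hk0
      exact_mod_cast this
  · rw [hL', hP', one_mul]
    push_cast
    rw [Real.sqrt_le_left (by positivity)]
    have h2 : (k : ℝ) ^ 6 ≤ (k : ℝ) ^ 12 := pow_le_pow_right₀ hk1 (by norm_num)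
    calc (k : ℝ) ^ 6 ≤ (k : ℝ) ^ 12 := h2
      _ ≤ (16 * (k : ℝ) ^ 6) ^ 2 := by
        have : (0 : ℝ) ≤ (k : ℝ) ^ 12 := by positivity
        nlinarith
  · rw [hL', hP']
    push_cast
    have h2 : (k : ℝ) ^ 6 ≤ ((k : ℝ) ^ 6) ^ 2 := by
      rw [← pow_mul]
      exact pow_le_pow_right₀ hk1 (by norm_num)
    linarith
  · rw [hL', hP']
    have h2 : ((16 * k ^ 6 : ℕ) : ℝ) ^ (2 / 3 : ℝ) ≤ 8 * (k : ℝ) ^ 4 := by
      apply rpow_two_thirds (by positivity) (by positivity)
      push_cast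
      have : (0 : ℝ) ≤ (k : ℝ) ^ 12 := by positivity
      nlinarith
    have h3 : ((k ^ 6 : ℕ) : ℝ) ^ (2 / 3 : ℝ) ≤ (k : ℝ) ^ 4 := by
      apply rpow_two_thirds (by positivity) (by positivity)
      push_cast
      apply le_of_eq
      ring
    have h4 : (0 : ℝ) ≤ ((k ^ 6 : ℕ) : ℝ) ^ (2 / 3 : ℝ) := by positivity
    have h5 : ((k : ℝ) ^ 4 * (k : ℝ) ^ 4) ≤ incidences P L := by exact_mod_cast hI
    calc 1 / 8 * ((16 * k ^ 6 : ℕ) : ℝ) ^ (2 / 3 : ℝ) * ((k ^ 6 : ℕ) : ℝ) ^ (2 / 3 : ℝ)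
        ≤ 1 / 8 * (8 * (k : ℝ) ^ 4) * (k : ℝ) ^ 4 := by
          apply mul_le_mul _ h3 h4 (by positivity)
          apply mul_le_mul_of_nonneg_left h2 (by norm_num)
      _ = (k : ℝ) ^ 4 * (k : ℝ) ^ 4 := by ring
      _ ≤ incidences P L := h5

end Pool.Agent.Results.MP_fad2aa_co.QuadraticFieldGrids
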